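import Pool.Agent.Lib.MP_ef13ad_lc.R.Defs

open Cardinal Ordinal Set Order

namespace Pool.Agent.MP_ef13ad_lc

theorem exists_ladder_cl {k u : Cardinal.{0}} {g : Cardinal.{0} → Cardinal.{0}} (hg : Monotone g)
    (hinf : ∀ c, c < g c) (hs : k.IsSingular) (hl : ∀ c < k, g c < k) (hu : u < k) :
    ∃ m : Ordinal.{0} → Cardinal.{0}, (∀ i < k.ord.cof.ord, ℵ₀ ≤ m i ∧ m i < k) ∧
      (∀ g < k.ord, AE k.ord.cof.ord (fun i => g < (m i).ord)) ∧
      (∀ i j, i ≤ j → j < k.ord.cof.ord → m i ≤ m j) ∧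
      ∀ d < k.ord.cof.ord, IsSuccLimit d → (∀ c < m d, g c < m d) ∧ (m d).IsSingular ∧ u < m d ∧
        (m d).ord.cof ≤ k.ord.cof ∧
        ∀ y < (m d).ord, ∃ j < d, y < (m j).ord := by
  obtain ⟨cs, -, c1, c2⟩ := exists_cofSeq k.ord
  have hν : ℵ₀ ≤ k.ord.cof :=
    Ordinal.aleph0_le_cof_iff.2 (Ordinal.one_lt_cof_iff.2 (isSuccLimit_ord hs.aleph0_le))
  have hνk : k.ord.cof < k := hs.cof_ord_lt
  have hn : IsSuccLimit k.ord.cof.ord := isSuccLimit_ord hν
  obtain ⟨x, hx⟩ := exists_rec (β := Ordinal.{0})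
    (fun j x b => b = (g (max (sSup (x '' Iio j)).card
      (max (cs j).card (max u k.ord.cof)))).ord)
    (fun j x y b h hb => by rw [hb, image_congr (fun l (hl : l ∈ Iio j) => h l hl)])
    (fun j x => ⟨_, rfl⟩)
  obtain ⟨e, he⟩ : ∃ e : Ordinal.{0} → Cardinal.{0}, ∀ j, e j =
      max (sSup (x '' Iio j)).card (max (cs j).card (max u k.ord.cof)) := ⟨_, fun _ => rfl⟩
  obtain ⟨s, hsd⟩ : ∃ s : Ordinal.{0} → Cardinal.{0}, ∀ j, s j = (sSup (x '' Iio j)).card :=
    ⟨_, fun _ => rfl⟩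
  have hx' : ∀ j, x j = (g (e j)).ord := fun j => by rw [he]; exact hx j
  have e1 : ∀ j, s j ≤ e j := fun j => by rw [he, hsd]; exact le_max_left _ _
  have e2 : ∀ j, (cs j).card ≤ e j := fun j => by
    rw [he]; exact (le_max_left _ _).trans (le_max_right _ _)
  have e3 : ∀ j, u ≤ e j := fun j => by
    rw [he]; exact ((le_max_left _ _).trans (le_max_right _ _)).trans (le_max_right _ _)
  have e4 : ∀ j, k.ord.cof ≤ e j := fun j => by
    rw [he]; exact ((le_max_right _ _).trans (le_max_right _ _)).trans (le_max_right _ _)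
  have a1 : ∀ i j, i < j → g (e i) ≤ s j := fun i j h => by
    have := card_le_card (le_sSup_image x h)
    rwa [hx', card_ord, ← hsd] at this
  have a2 : ∀ i j, i < j → e i < s j := fun i j h => (hinf _).trans_le (a1 i j h)
  have b1 : ∀ j, j < k.ord.cof.ord → x j < k.ord := by
    intro j
    induction j using WellFoundedLT.induction with
    | ind j ih =>
      intro hj
      have h1 : sSup (x '' Iio j) < k.ord :=
        sSup_image_lt (lt_ord.1 hj) fun i hi => ih i hi (hi.trans hj)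
      rw [hx', ord_lt_ord]
      refine hl _ ?_
      rw [he]
      exact max_lt (lt_ord.1 h1) (max_lt (lt_ord.1 (c1 j hj)) (max_lt hu hνk))
  have b2 : ∀ j, j < k.ord.cof.ord → s j < k := fun j hj => by
    rw [hsd]
    exact lt_ord.1 (sSup_image_lt (lt_ord.1 hj) fun i hi => b1 i (hi.trans hj))
  refine ⟨fun d => max ℵ₀ (s d), fun i hi => ⟨le_max_left _ _, max_lt (hν.trans_lt hνk) (b2 i hi)⟩,
    ?_, ?_, ?_⟩
  · intro y hy
    obtain ⟨j, hj, h⟩ := c2 y hy
    refine ⟨succ j, hn.succ_lt hj, fun i h1 _ => lt_ord.2 ?_⟩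
    exact (((card_le_card h).trans (e2 j)).trans_lt
      (a2 j i ((lt_succ j).trans_le h1))).trans_le (le_max_right _ _)
  · intro i j hij _
    refine max_le_max le_rfl ?_
    rw [hsd, hsd]
    refine card_le_card (csSup_le' ?_)
    rintro _ ⟨l, hl', rfl⟩
    exact le_sSup_image x (lt_of_lt_of_le hl' hij)
  · intro d hd hlim
    have d0 : 0 < d := hlim.bot_lt
    have m1 : k.ord.cof < s d := (e4 0).trans_lt (a2 0 d d0)
    have m0 : max ℵ₀ (s d) = s d := max_eq_right (hν.trans m1.le)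
    have key : ∀ c < s d, ∃ j < d, c < s j := by
      intro c hc
      have h1 : c.ord < sSup (x '' Iio d) := by
        by_contra h
        have := card_le_card (not_lt.1 h)
        rw [card_ord, ← hsd] at this
        exact hc.not_ge this
      obtain ⟨j, hj, h⟩ := lt_sSup_image h1
      rw [hx', ord_lt_ord] at h
      exact ⟨succ j, hlim.succ_lt hj, h.trans_le (a1 j _ (lt_succ j))⟩
    have up : ∀ j < d, g (e j) < s d := fun j hj =>
      ((a1 j _ (lt_succ j)).trans (e1 _)).trans_lt (a2 _ d (hlim.succ_lt hj))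
    simp only [m0]
    have hcf : (s d).ord.cof ≤ d.card := by
      by_contra h
      have h1 : sSup (x '' Iio d) < (s d).ord := by
        refine sSup_image_lt (not_le.1 h) fun j hj => ?_
        rw [hx', ord_lt_ord]; exact up j hj
      have h2 := lt_ord.1 h1
      rw [← hsd] at h2
      exact lt_irrefl _ h2
    refine ⟨fun c hc => ?_, ⟨hν.trans m1.le, fun h => ?_⟩,
      (e3 0).trans_lt (a2 0 d d0), hcf.trans (lt_ord.1 hd).le, fun y hy => ?_⟩
    · obtain ⟨j, hj, h⟩ := key c hc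
      exact (hg (h.le.trans (e1 j))).trans_lt (up j hj)
    · have h1 : sSup (x '' Iio d) < (s d).ord := by
        refine sSup_image_lt ?_ fun j hj => ?_
        · rw [h]; exact (lt_ord.1 hd).trans m1
        · rw [hx', ord_lt_ord]; exact up j hj
      have h2 := lt_ord.1 h1
      rw [← hsd] at h2
      exact lt_irrefl _ h2
    · obtain ⟨j, hj, h⟩ := key _ (lt_ord.1 hy)
      exact ⟨j, hj, lt_ord.2 (h.trans_le (le_max_right _ _))⟩

end Pool.Agent.MP_ef13ad_lc
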