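import Pool.Agent.Lib.MP_ef13ad_lc.R.Main
import Pool.Agent.Lib.MP_ef13ad_lc.P.Reflect3

open Cardinal Ordinal Set Order

namespace Pool.Agent.MP_ef13ad_lc

theorem main4_not_WC (k v : Cardinal.{0}) (hk : ℵ₀ ≤ k) {f : Cardinal.{0} → Cardinal.{0}}
    (hf : Monotone f) (hinf : ∀ c, c < f c) (hpow : ∀ c, ∀ w ≤ v, c ^ w ≤ f c)
    (l : Cardinal.{0}) :
    k < l → l.IsSingular → l.ord.cof ≤ v → (∀ c < l, f c < l) →
    (∀ t : Cardinal.{0}, k < t → t ≤ l → t.IsSingular → (∀ c < t, f c < t) → t.ord.cof ≤ k →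
      ∃ r : Cardinal.{0}, r.IsRegular ∧ t < r ∧ CC r t) →
    ¬ WC l k := by
  induction l using WellFoundedLT.induction with
  | ind l ih =>
    intro hkl hs hv hl H hw
    have hl0 : ℵ₀ ≤ l := hk.trans hkl.le
    have hP : ∃ G, Bd (succ l).ord G ∧ ∀ Y, Wit l k G Y →
        ∃ b < l.ord.cof.ord, ∀ y ∈ Y, y < l.ord.cof.ord → y < b := by
      rcases le_or_gt l.ord.cof k with hck | hck
      · obtain ⟨r, hr, -, hrl⟩ := H l hkl le_rfl hs hl hck
        obtain ⟨X, D, F, hX, hX', hD, hF, hN⟩ := hrl.noThin hl0 hr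
        obtain ⟨c, hc, hc'⟩ := hN.exists_cof hs hX hD hF
        obtain ⟨G0, hG0, h0⟩ :=
          hN.push hl0 (ord_le_ord.2 (Ordinal.cof_ord_le l)) hX hX' hD hF hc hc'
        exact ⟨G0, hG0, h0 k hk hkl⟩
      · refine ⟨fun _ x _ => x, fun _ x hx _ _ => hx, fun Y hY => ?_⟩
        have hle : l.ord.cof.ord ≤ l.ord := ord_le_ord.2 (Ordinal.cof_ord_le l)
        have hS : Sz (Y ∩ Iio l.ord.cof.ord) k :=
          hY.2.2.2.mono (fun y hy => ⟨hy.1, lt_of_lt_of_le hy.2 hle⟩)
        obtain ⟨b, hb, hb'⟩ := hS.exists_bound (o := l.ord.cof.ord)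
          (by rw [Ordinal.cof_ord_cof]; exact hck) (fun a ha => ha.2)
        exact ⟨b, hb, fun y hy hy' => hb' y ⟨hy, hy'⟩⟩
    obtain ⟨G0, hG0, h0⟩ := hP
    obtain ⟨G1, hG1, h1⟩ := reflect_pow hf hinf hs
      (fun c hc => (hpow c _ hv).trans_lt (hl c hc)) hl hk hkl (fun t ht hkt hts htl htv =>
      ih t ht hkt hts (htv.trans hv) htl (fun s h1 h2 => H s h1 (h2.trans ht.le)))
    obtain ⟨Y, hY1, hY2, hY3, hY4⟩ := hw
      (fun m => if m % 2 = 0 then G0 (m / 2) else G1 (m / 2)) (by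
        intro m x hx y hy
        by_cases hm : m % 2 = 0
        · simp only [hm, if_true]
          exact hG0 _ x hx y hy
        · simp only [hm, if_false]
          exact hG1 _ x hx y hy)
    have w0 : Wit l k G0 Y := by
      refine ⟨hY1, fun m x hx y hy => ?_, hY3, hY4⟩
      have := hY2 (2 * m) x hx y hy
      have e1 : 2 * m % 2 = 0 := by omega
      have e2 : 2 * m / 2 = m := by omega
      simpa only [e1, e2, if_true] using this
    have w1 : Wit l k G1 Y := by
      refine ⟨hY1, fun m x hx y hy => ?_, hY3, hY4⟩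
      have := hY2 (2 * m + 1) x hx y hy
      have e1 : ¬ (2 * m + 1) % 2 = 0 := by omega
      have e2 : (2 * m + 1) / 2 = m := by omega
      simpa only [e1, e2, if_false] using this
    exact h1 Y w1 (h0 Y w0)

theorem exists_blocked_pow (l k : Cardinal.{0}) (g : Cardinal.{0} → Cardinal.{0})
    (hg : Monotone g) (hk : ℵ₀ ≤ k) (hkl : k < l) (hs : l.IsSingular)
    (hp : ∀ c < l, c ^ l.ord.cof < l) (hl : ∀ c < l, g c < l) (h : CC l k) :
    ∃ t : Cardinal.{0}, k < t ∧ t ≤ l ∧ t.IsSingular ∧ (∀ c < t, g c < t) ∧ t.ord.cof ≤ k ∧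
      ∀ r : Cardinal.{0}, r.IsRegular → t < r → ¬ CC r t := by
  by_contra hc
  push Not at hc
  have hl0 : ℵ₀ ≤ l := hk.trans hkl.le
  have hsucc : ∀ c < l, succ c < l := by
    intro c hc'
    refine lt_of_le_of_ne (succ_le_of_lt hc') fun e => ?_
    rcases lt_or_ge c ℵ₀ with h1 | h1
    · have h2 : succ c < ℵ₀ := isSuccLimit_aleph0.succ_lt h1
      exact (e ▸ h2).not_ge hl0
    · have h2 := (isRegular_succ h1).cof_ord
      rw [e] at h2
      exact hs.cof_ord_lt.ne h2
  refine main4_not_WC k l.ord.cof hk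
    (f := fun c => max (g c) (max (succ c) (succ c ^ l.ord.cof))) ?_ ?_ ?_ l hkl hs le_rfl ?_ ?_
    (main2_wc h hl0)
  · intro c c' hcc
    exact max_le_max (hg hcc) (max_le_max (succ_le_succ hcc)
      (power_le_power_right (succ_le_succ hcc)))
  · intro c
    exact (lt_succ c).trans_le ((le_max_left _ _).trans (le_max_right _ _))
  · intro c w hw
    refine le_trans ?_ ((le_max_right _ _).trans (le_max_right _ _))
    exact (power_le_power_right (le_succ c)).trans
      (power_le_power_left (Cardinal.succ_ne_zero c) hw)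
  · intro c hc'
    exact max_lt (hl c hc') (max_lt (hsucc c hc') (hp _ (hsucc c hc')))
  · intro t h1 h2 h3 h4 h5
    exact hc t h1 h2 h3 (fun c hc' => (le_max_left _ _).trans_lt (h4 c hc')) h5

end Pool.Agent.MP_ef13ad_lc
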